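import Pool.Agent.H57.LT.LimT
import Pool.Agent.H57.E32.Final
import Pool.Agent.H23.CL.LimA
import Pool.Agent.H23.CL.ParX

/-!
The exact constant `P_u(K_t, Δ, ω)` for all `u`, all `t ≥ u + 2` and large `Δ` whose residue modulo
`ω - u` is at most `t - u - 1`; for `t = ω` and `ω ≥ 101 u³` or `ω = u + 2` all residues
-/

set_option autoImplicit false

namespace Pool.Agent.Results.MP_e32fce_co.AllCliques

open Filter Topology H57E32

/-- Let `u ≥ 1`, `t ≥ u + 2`, `ω ≥ t`.  For all large `Δ` not divisible by `ω - u`, with the residue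
`r = Δ mod (ω - u)` and `L = T_ω(Δ + u ⌊Δ/(ω - u)⌋)`, if one of the conditions
`r ≤ t - u - 1` and `(t + u - 1) r < (t - u - 1) (ω - 1)`;  `t = ω ≥ 101 u³`;  `t = ω = u + 2`
holds: `ex_u(p, K_t, B) k^u(L) ≤ p k^t(L)` for every `p`, with equality for every multiple `p` of
`k^u(L)`, and `ex_u(p, K_t, B)/p` tends to `k^t(L)/k^u(L)`. -/
theorem result (u t ω : ℕ) (hu : 1 ≤ u) (ht : u + 2 ≤ t) (hω : t ≤ ω) :
    ∃ Δ₀ : ℕ, ∀ Δ : ℕ, Δ₀ ≤ Δ → 1 ≤ Δ % (ω - u) →
      (Δ % (ω - u) ≤ t - u - 1 ∧ (t + u - 1) * (Δ % (ω - u)) < (t - u - 1) * (ω - 1)) ∨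
        (t = ω ∧ 101 * u ^ 3 ≤ ω) ∨ (t = ω ∧ ω = u + 2) →
      (∀ p : ℕ, exK u t Δ ω p *
          kc u (SimpleGraph.turanGraph (Δ + u * (Δ / (ω - u))) ω) ≤
        p * kc t (SimpleGraph.turanGraph (Δ + u * (Δ / (ω - u))) ω)) ∧
      (∀ q : ℕ, exK u t Δ ω
          (q * kc u (SimpleGraph.turanGraph (Δ + u * (Δ / (ω - u))) ω)) =
        q * kc t (SimpleGraph.turanGraph (Δ + u * (Δ / (ω - u))) ω)) ∧
      Tendsto (fun p : ℕ => (exK u t Δ ω p : ℝ) / p) atTop
        (𝓝 ((kc t (SimpleGraph.turanGraph (Δ + u * (Δ / (ω - u))) ω) : ℝ) /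
          kc u (SimpleGraph.turanGraph (Δ + u * (Δ / (ω - u))) ω))) := by
  obtain ⟨R, rfl⟩ : ∃ R, ω = R + u := ⟨ω - u, by omega⟩
  obtain ⟨s, rfl⟩ : ∃ s, t = s + u := ⟨t - u, by omega⟩
  have e1 : R + u - u = R := by omega
  rw [e1]
  have hs2 : 2 ≤ s := by omega
  have hsR : s ≤ R := by omega
  have hR : 0 < R := by omega
  have hu3 : u ≤ u ^ 3 := Nat.le_self_pow (by norm_num) u
  -- one threshold for every residue
  have key : ∀ r : ℕ, ∃ m₀ : ℕ, ∀ m : ℕ, m₀ ≤ m → 1 ≤ r → r < R →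
      (r ≤ s + u - u - 1 ∧ (s + u + u - 1) * r < (s + u - u - 1) * (R + u - 1)) ∨
        (s + u = R + u ∧ 101 * u ^ 3 ≤ R + u) ∨ (s + u = R + u ∧ R + u = u + 2) →
      (∀ p : ℕ, exK u (s + u) (R * m + r) (R + u) p * kc u (H57LC.TG (R + u) m r) ≤
        p * kc (s + u) (H57LC.TG (R + u) m r)) ∧
      (∀ q : ℕ, exK u (s + u) (R * m + r) (R + u) (q * kc u (H57LC.TG (R + u) m r)) =
        q * kc (s + u) (H57LC.TG (R + u) m r)) ∧
      Tendsto (fun p : ℕ => (exK u (s + u) (R * m + r) (R + u) p : ℝ) / p) atTop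
        (𝓝 ((kc (s + u) (H57LC.TG (R + u) m r) : ℝ) / kc u (H57LC.TG (R + u) m r))) := by
    intro r
    by_cases hr1 : 1 ≤ r ∧ r < R
    swap
    · exact ⟨0, fun m _ h1 h2 _ => absurd ⟨h1, h2⟩ hr1⟩
    obtain ⟨h1, h2⟩ := hr1
    by_cases hr : r ≤ s + u - u - 1 ∧ (s + u + u - 1) * r < (s + u - u - 1) * (R + u - 1)
    · obtain ⟨h3, h4⟩ := hr
      have h3' : (s + 2 * u - 1) * r < (s - 1) * (R + u - 1) := by
        have e2 : s + u + u - 1 = s + 2 * u - 1 := by omega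
        have e3 : s + u - u - 1 = s - 1 := by omega
        rwa [e2, e3] at h4
      obtain ⟨m₀, hm₀⟩ := H57LT.main_limT (u := u) (R := R) (s := s) (r := r) hu hs2 hsR h1
        (by omega) h3'
      exact ⟨m₀, fun m hm _ _ _ => hm₀ m hm⟩
    by_cases hr' : s + u = R + u ∧ 101 * u ^ 3 ≤ R + u
    · obtain ⟨h3, h4⟩ := hr'
      obtain ⟨m₀, hm₀⟩ := H23CL.main_limA u R r (H23CL.par_of_ge u R hu (by omega)) h2
      refine ⟨m₀, fun m hm _ _ _ => ?_⟩
      rw [h3]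
      exact hm₀ m hm
    by_cases hr'' : s + u = R + u ∧ R + u = u + 2
    · obtain ⟨h3, h4⟩ := hr''
      have hR2 : R = 2 := by omega
      have hs2' : s = 2 := by omega
      have hr1 : r = 1 := by omega
      subst hR2 hs2' hr1
      refine ⟨1200, fun m hm _ _ _ => ?_⟩
      have hodd : ∀ w : ℕ, w = u + 2 →
          (∀ p : ℕ, exK u w (2 * m + 1) w p * kc u (H57LC.TG w m 1) ≤
            p * kc w (H57LC.TG w m 1)) ∧
          (∀ q : ℕ, exK u w (2 * m + 1) w (q * kc u (H57LC.TG w m 1)) =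
            q * kc w (H57LC.TG w m 1)) ∧
          Tendsto (fun p : ℕ => (exK u w (2 * m + 1) w p : ℝ) / p) atTop
            (𝓝 ((kc w (H57LC.TG w m 1) : ℝ) / kc u (H57LC.TG w m 1))) := by
        rintro w rfl
        have hm1 : 1 ≤ m := by omega
        have g1 := tl_density hu hm1
        have hpos : (0 : ℝ) < kc u (TL u m) := by exact_mod_cast tl_kc_u_pos hu hm1
        have g2 : (kc (u + 2) (TL u m) : ℝ) / kc u (TL u m) = rho u m := by
          rw [g1, mul_div_cancel_right₀ _ hpos.ne']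
        refine ⟨?_, ?_, ?_⟩
        · intro p
          have g3 := exK_le hu hm p
          have g4 : (exK u (u + 2) (2 * m + 1) (u + 2) p : ℝ) * kc u (TL u m) ≤
              p * kc (u + 2) (TL u m) := by
            rw [g1]
            calc (exK u (u + 2) (2 * m + 1) (u + 2) p : ℝ) * kc u (TL u m)
                ≤ (rho u m * p) * kc u (TL u m) := mul_le_mul_of_nonneg_right g3 hpos.le
              _ = _ := by ring
          exact_mod_cast g4
        · intro q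
          exact exK_mul hu hm q
        · have g5 := tendsto_exK hu hm
          rw [← g2] at g5
          exact g5
      exact hodd (2 + u) (by omega)
    · exact ⟨0, fun m _ _ _ h => absurd h (by tauto)⟩
  choose m₀ hm₀ using key
  refine ⟨R * (∑ r ∈ Finset.range R, m₀ r), fun Δ hΔ h1 h2 => ?_⟩
  have hm : m₀ (Δ % R) ≤ Δ / R := by
    have h4 : m₀ (Δ % R) ≤ ∑ r ∈ Finset.range R, m₀ r :=
      Finset.single_le_sum (f := m₀) (fun _ _ => Nat.zero_le _)
        (Finset.mem_range.2 (Nat.mod_lt _ hR))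
    exact h4.trans ((Nat.le_div_iff_mul_le hR).2 (by rw [mul_comm]; exact hΔ))
  have h5 := hm₀ (Δ % R) (Δ / R) hm h1 (Nat.mod_lt _ hR) h2
  have e4 : R * (Δ / R) + Δ % R = Δ := Nat.div_add_mod Δ R
  have e5 : Δ + u * (Δ / R) = (R + u) * (Δ / R) + Δ % R := by
    calc Δ + u * (Δ / R) = (R * (Δ / R) + Δ % R) + u * (Δ / R) := by rw [e4]
      _ = _ := by ring
  rw [e5]
  rw [e4] at h5
  exact h5

end Pool.Agent.Results.MP_e32fce_co.AllCliques
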