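import Pool.Agent.H45.KTD.MainK

/-!
# MP_e32fce_co: `P_1(K_t, Δ, ω)` for `t ≥ 4` and large `Δ`: when is `L` optimal?

`u = 1`, `H = K_t`: a graph contains no member of `{K_{1,Δ+1}, K_{ω+1}}` iff its maximum degree is at most `Δ` and it has no
clique of size `ω + 1`; `k¹(G) = p` means `p` vertices.  `Cls p Δ ω` is this class of graphs (on `Fin p`), `exK t p Δ ω` the
maximal number of `t`-cliques, so that `P_1(K_t, Δ, ω) = lim exK t p Δ ω / p`.
`Δ = (ω - 1) m + r`, `1 ≤ r ≤ ω - 2`, `q = ω - 1 - r`.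
-/

set_option autoImplicit false

open Filter Topology

namespace Pool.Agent.Results.MP_e32fce_co.CliqueDensity

open Pool.Agent.H11.TD (Cls)

open Pool.Agent.H45.KTD (kc exK)

/-- `ρ_1(K_t, L)`: the number of `t`-cliques of `L = T_ω(Δ + ⌊Δ/(ω-1)⌋)` divided by its number of vertices -/
noncomputable def rhoL (t Δ ω : ℕ) : ℝ :=
  (kc t (SimpleGraph.turanGraph (Δ + Δ / (ω - 1)) ω) : ℝ) / ((Δ + Δ / (ω - 1) : ℕ) : ℝ)

private theorem three (ω : ℕ) (hω : 5 ≤ ω) : ∃ Δ₀ : ℕ, ∀ Δ ≥ Δ₀, ∀ t m r q : ℕ, 4 ≤ t → t ≤ ω →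
    Δ = (ω - 1) * m + r → 1 ≤ r → 1 ≤ q → r + q + 1 = ω →
    (t = ω → Tendsto (fun p : ℕ => (exK t p Δ ω : ℝ) / p) atTop (𝓝 (rhoL t Δ ω))) ∧
    (2 * (ω - 1) < t * q →
      (r ≤ q ∨
        t * r.choose (t - 1) * (r ^ (t - 1) + q ^ (t - 1)) < (ω - 1).choose (t - 1) * r ^ (t - 1)) →
      Tendsto (fun p : ℕ => (exK t p Δ ω : ℝ) / p) atTop (𝓝 (rhoL t Δ ω))) ∧
    ((2 ≤ q ∧ t * q < 2 * (ω - 1)) ∨
      (q ≤ r ∧
        (ω - 1).choose (t - 1) * r ^ (t - 1) < t * r.choose (t - 1) * (r ^ (t - 1) + q ^ (t - 1))) →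
      ∃ c : ℝ, rhoL t Δ ω < c ∧ ∀ᶠ p : ℕ in atTop, c ≤ (exK t p Δ ω : ℝ) / p) := by
  obtain ⟨R, rfl⟩ : ∃ R, ω = R + 1 := ⟨ω - 1, by omega⟩
  have hR : 4 ≤ R := by omega
  rw [Nat.add_sub_cancel]
  have hL : ∀ t m r : ℕ, r < R → rhoL t (R * m + r) (R + 1) = Pool.Agent.H45.KTD.PL R r m t := by
    intro t m r hr
    unfold rhoL Pool.Agent.H45.KTD.PL
    have h1 : (R * m + r) / R = m := by
      rw [Nat.mul_add_div (by omega), Nat.div_eq_of_lt (by omega), add_zero]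
    have h2 : R * m + r + m = (R + 1) * m + r := by ring
    rw [Nat.add_sub_cancel, h1, h2, Pool.Agent.H45.KTD.kc_turan R r m t hr.le]
    push_cast
    rfl
  -- thresholds for given `r`, `t`
  have key : ∀ a : ℕ × ℕ, ∃ m0 : ℕ, ∀ m : ℕ, m0 ≤ m → ∀ q : ℕ, 4 ≤ a.2 → a.2 ≤ R + 1 →
      1 ≤ a.1 → 1 ≤ q → a.1 + q + 1 = R + 1 →
      (a.2 = R + 1 → Tendsto (fun p : ℕ => (exK a.2 p (R * m + a.1) (R + 1) : ℝ) / p) atTop
        (𝓝 (rhoL a.2 (R * m + a.1) (R + 1)))) ∧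
      (2 * R < a.2 * q →
        (a.1 ≤ q ∨ a.2 * a.1.choose (a.2 - 1) * (a.1 ^ (a.2 - 1) + q ^ (a.2 - 1)) <
          R.choose (a.2 - 1) * a.1 ^ (a.2 - 1)) →
        Tendsto (fun p : ℕ => (exK a.2 p (R * m + a.1) (R + 1) : ℝ) / p) atTop
          (𝓝 (rhoL a.2 (R * m + a.1) (R + 1)))) ∧
      ((2 ≤ q ∧ a.2 * q < 2 * R) ∨
        (q ≤ a.1 ∧ R.choose (a.2 - 1) * a.1 ^ (a.2 - 1) <
          a.2 * a.1.choose (a.2 - 1) * (a.1 ^ (a.2 - 1) + q ^ (a.2 - 1))) →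
        ∃ c : ℝ, rhoL a.2 (R * m + a.1) (R + 1) < c ∧
          ∀ᶠ p : ℕ in atTop, c ≤ (exK a.2 p (R * m + a.1) (R + 1) : ℝ) / p) := by
    rintro ⟨r, t⟩
    by_cases hb : 4 ≤ t ∧ t ≤ R + 1 ∧ 1 ≤ r ∧ r < R
    · obtain ⟨ht, htR, hr, hrR⟩ := hb
      have hopt : ∃ m1 : ℕ, ∀ m : ℕ, m1 ≤ m → Pool.Agent.H45.KTD.Opt R r t →
          Tendsto (fun p : ℕ => (exK t p (R * m + r) (R + 1) : ℝ) / p) atTop
            (𝓝 (rhoL t (R * m + r) (R + 1))) := by
        by_cases ho : Pool.Agent.H45.KTD.Opt R r t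
        · obtain ⟨m1, h1⟩ := Pool.Agent.H45.KTD.main_opt R r t hR hr hrR ht htR ho
          refine ⟨m1, fun m hm _ => ?_⟩
          rw [hL t m r hrR]
          exact h1 m hm
        · exact ⟨0, fun m _ h => absurd h ho⟩
      have hG : ∃ m1 : ℕ, ∀ m : ℕ, m1 ≤ m → r + 2 ≤ R → t * (R - r) < 2 * R →
          ∃ c : ℝ, rhoL t (R * m + r) (R + 1) < c ∧
            ∀ᶠ p : ℕ in atTop, c ≤ (exK t p (R * m + r) (R + 1) : ℝ) / p := by
        by_cases ho : r + 2 ≤ R ∧ t * (R - r) < 2 * R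
        · obtain ⟨m1, h1⟩ := Pool.Agent.H45.KTD.main_G R r t hR ho.1 ht htR ho.2
          refine ⟨m1, fun m hm _ _ => ?_⟩
          rw [hL t m r hrR]
          exact h1 m hm
        · exact ⟨0, fun m _ h h' => absurd ⟨h, h'⟩ ho⟩
      have hB : ∃ m1 : ℕ, ∀ m : ℕ, m1 ≤ m → R ≤ 2 * r → R.choose (t - 1) * r ^ (t - 1) <
          t * r.choose (t - 1) * (r ^ (t - 1) + (R - r) ^ (t - 1)) →
          ∃ c : ℝ, rhoL t (R * m + r) (R + 1) < c ∧
            ∀ᶠ p : ℕ in atTop, c ≤ (exK t p (R * m + r) (R + 1) : ℝ) / p := by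
        by_cases ho : R ≤ 2 * r ∧ R.choose (t - 1) * r ^ (t - 1) <
          t * r.choose (t - 1) * (r ^ (t - 1) + (R - r) ^ (t - 1))
        · obtain ⟨m1, h1⟩ := Pool.Agent.H45.KTD.main_B R r t hR hr hrR ho.1 ht htR ho.2
          refine ⟨m1, fun m hm _ _ => ?_⟩
          rw [hL t m r hrR]
          exact h1 m hm
        · exact ⟨0, fun m _ h h' => absurd ⟨h, h'⟩ ho⟩
      obtain ⟨m1, h1⟩ := hopt
      obtain ⟨m2, h2⟩ := hG
      obtain ⟨m3, h3⟩ := hB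
      refine ⟨max m1 (max m2 m3), fun m hm q _ _ _ hq hrq => ?_⟩
      have hm1 : m1 ≤ m := (le_max_left _ _).trans hm
      have hm2 : m2 ≤ m := (le_max_left _ _).trans ((le_max_right _ _).trans hm)
      have hm3 : m3 ≤ m := (le_max_right _ _).trans ((le_max_right _ _).trans hm)
      obtain rfl : q = R - r := by simp only at hrq; omega
      refine ⟨fun h => ?_, fun hI h => ?_, fun h => ?_⟩
      · refine h1 m hm1 ?_
        by_cases hr1 : r + 1 = R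
        · exact Or.inr ⟨hr1, h⟩
        · left
          have h4 : 2 * R < t * (R - r) := by
            have h5 : 2 ≤ R - r := by omega
            simp only at h
            rw [h]
            calc 2 * R < (R + 1) * 2 := by omega
              _ ≤ (R + 1) * (R - r) := Nat.mul_le_mul_left _ h5
          refine ⟨h4, Or.inr ?_⟩
          simp only at h
          have h5 : r.choose (t - 1) = 0 := Nat.choose_eq_zero_of_lt (by omega)
          rw [h5, mul_zero, zero_mul, h, Nat.add_sub_cancel, Nat.choose_self, one_mul]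
          exact Nat.pow_pos hr
      · refine h1 m hm1 (Or.inl ⟨hI, ?_⟩)
        rcases h with h | h
        · left
          simp only at h
          omega
        · exact Or.inr h
      · rcases h with ⟨h, h'⟩ | ⟨h, h'⟩
        · exact h2 m hm2 (by omega) h'
        · exact h3 m hm3 (by simp only at h; omega) h'
    · refine ⟨0, fun m _ q h4 h5 h6 h7 h8 => absurd ⟨h4, h5, h6, ?_⟩ hb⟩
      simp only at h8
      omega
  choose M hM using key
  set S : ℕ := ∑ a ∈ Finset.range (R + 2) ×ˢ Finset.range (R + 2), M a with hS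
  refine ⟨R * S + R, fun Δ hΔ t m r q ht htR hΔr hr hq hrq => ?_⟩
  subst hΔr
  have hmem : (r, t) ∈ Finset.range (R + 2) ×ˢ Finset.range (R + 2) := by
    rw [Finset.mem_product, Finset.mem_range, Finset.mem_range]
    constructor <;> simp only <;> omega
  have h1 : M (r, t) ≤ S := Finset.single_le_sum (f := M) (fun _ _ => Nat.zero_le _) hmem
  have h2 : M (r, t) ≤ m := by
    by_contra hcon
    have h3 : R * m ≤ R * S := Nat.mul_le_mul_left _ (by omega)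
    omega
  exact hM (r, t) m h2 q ht htR hr hq hrq

private theorem q_one {r t : ℕ} (ht : 4 ≤ t) (htr : t ≤ r + 1) :
    (r + 1).choose (t - 1) * r ^ (t - 1) < t * r.choose (t - 1) * (r ^ (t - 1) + 1 ^ (t - 1)) := by
  obtain ⟨k, rfl⟩ : ∃ k, t = k + 1 := ⟨t - 1, by omega⟩
  obtain ⟨s, rfl⟩ : ∃ s, r = k + s := ⟨r - k, by omega⟩
  rw [Nat.add_sub_cancel, one_pow]
  have h1 := Nat.choose_mul_succ_eq (k + s) k
  have h2 : k + s + 1 - k = s + 1 := by omega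
  rw [h2] at h1
  have h3 : (k + s + 1) ≤ (k + 1) * (s + 1) := by nlinarith [Nat.zero_le (k * s)]
  have h4 : (k + s + 1).choose k ≤ (k + 1) * (k + s).choose k := by
    have h5 : (k + s + 1) * (k + s + 1).choose k ≤ (k + s + 1) * ((k + 1) * (k + s).choose k) := by
      calc (k + s + 1) * (k + s + 1).choose k
          ≤ ((k + 1) * (s + 1)) * (k + s + 1).choose k := Nat.mul_le_mul_right _ h3
        _ = (k + 1) * ((k + s + 1).choose k * (s + 1)) := by ring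
        _ = (k + 1) * ((k + s).choose k * (k + s + 1)) := by rw [← h1]
        _ = (k + s + 1) * ((k + 1) * (k + s).choose k) := by ring
    exact Nat.le_of_mul_le_mul_left h5 (by omega)
  have h6 : 0 < (k + 1) * (k + s).choose k :=
    Nat.mul_pos (by omega) (Nat.choose_pos (by omega))
  calc (k + s + 1).choose k * (k + s) ^ k ≤ ((k + 1) * (k + s).choose k) * (k + s) ^ k :=
        Nat.mul_le_mul_right _ h4
    _ < ((k + 1) * (k + s).choose k) * (k + s) ^ k + (k + 1) * (k + s).choose k :=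
        Nat.lt_add_of_pos_right h6
    _ = (k + 1) * (k + s).choose k * ((k + s) ^ k + 1) := by ring

theorem result (ω : ℕ) (hω : 5 ≤ ω) : ∃ Δ₀ : ℕ, ∀ Δ ≥ Δ₀, ∀ t m r q : ℕ, 4 ≤ t → t ≤ ω →
    Δ = (ω - 1) * m + r → 1 ≤ r → 1 ≤ q → r + q + 1 = ω →
    (t = ω ∨ (2 * (ω - 1) < t * q ∧ (r ≤ q ∨
        t * r.choose (t - 1) * (r ^ (t - 1) + q ^ (t - 1)) <
          (ω - 1).choose (t - 1) * r ^ (t - 1))) →
      Tendsto (fun p : ℕ => (exK t p Δ ω : ℝ) / p) atTop (𝓝 (rhoL t Δ ω))) ∧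
    ((t < ω ∧ t * q < 2 * (ω - 1)) ∨
      (q ≤ r ∧ (ω - 1).choose (t - 1) * r ^ (t - 1) <
        t * r.choose (t - 1) * (r ^ (t - 1) + q ^ (t - 1))) →
      ∃ c : ℝ, rhoL t Δ ω < c ∧ ∀ᶠ p : ℕ in atTop, c ≤ (exK t p Δ ω : ℝ) / p) := by
  obtain ⟨Δ₀, h⟩ := three ω hω
  refine ⟨Δ₀, fun Δ hΔ t m r q ht htω hm hr hq hrq => ?_⟩
  obtain ⟨h1, h2, h3⟩ := h Δ hΔ t m r q ht htω hm hr hq hrq
  refine ⟨fun hyp => ?_, fun hyp => ?_⟩
  · rcases hyp with hyp | ⟨hyp, hyp'⟩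
    · exact h1 hyp
    · exact h2 hyp hyp'
  · rcases hyp with ⟨hyp, hyp'⟩ | hyp
    · by_cases hq1 : q = 1
      · subst hq1
        have hω' : ω - 1 = r + 1 := by omega
        refine h3 (Or.inr ⟨hr, ?_⟩)
        rw [hω']
        exact q_one ht (by omega)
      · exact h3 (Or.inl ⟨by omega, hyp'⟩)
    · exact h3 (Or.inr hyp)

end Pool.Agent.Results.MP_e32fce_co.CliqueDensity
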