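import Pool.Agent.H11.TD.Tur

/-!
# MP_e32fce_co: the exact value of `P_1(K_3, Δ, ω)` for large `Δ`

`u = 1`, `H = K_3`: a graph contains no member of `{K_{1,Δ+1}, K_{ω+1}}` iff its maximum degree is at most `Δ` and it has no
clique of size `ω + 1`; `k¹(G) = p` means `p` vertices.  `Cls p Δ ω` is this class of graphs, `exT p Δ ω` the maximal
number of triangles, so that `P_1(K_3, Δ, ω) = lim exT p Δ ω / p`.
-/

set_option autoImplicit false

open Filter Topology

namespace Pool.Agent.Results.MP_e32fce_co.TriangleDensity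

open Pool.Agent.H11.TD (tri Cls exT)

/-- `ρ_1(K_3, L)`: the number of triangles of `L = T_ω(Δ + ⌊Δ/(ω-1)⌋)` divided by its number of vertices -/
noncomputable def rhoL (Δ ω : ℕ) : ℝ :=
  (tri (SimpleGraph.turanGraph (Δ + Δ / (ω - 1)) ω) : ℝ) / ((Δ + Δ / (ω - 1) : ℕ) : ℝ)

/-- the triangle density of the graph `G*` with `ω m + r + 1` vertices, for `Δ = (ω - 1) m + r`: the complete `ω`-partite graph with `r + 1` classes of size
`m + 1` and `s = ω - 1 - r` classes of size `m`, minus a perfect matching of the `s m` vertices of the small classes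
(minus `(s m + 1) / 2` edges covering them, two of them adjacent, if `s m` is odd) -/
noncomputable def rhoG (ω m r : ℕ) : ℝ :=
  (((r + 1).choose 3 : ℝ) * (m + 1) ^ 3 + ((r + 1).choose 2 : ℝ) * ((ω - 1 - r : ℕ) : ℝ) * (m + 1) ^ 2 * m +
      (r + 1) * ((ω - 1 - r).choose 2 : ℝ) * (m + 1) * m ^ 2 + ((ω - 1 - r).choose 3 : ℝ) * m ^ 3 -
      ((((ω - 1 - r) * m + 1) / 2 : ℕ) : ℝ) * ((ω - 2 : ℕ) * m + r + 1) + ((((ω - 1 - r) * m) % 2 : ℕ) : ℝ)) /
    (ω * m + r + 1)

theorem result (ω : ℕ) : ∃ Δ₀ : ℕ, ∀ Δ ≥ Δ₀, ∀ m r : ℕ, Δ = (ω - 1) * m + r → 1 ≤ r → r + 3 ≤ ω →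
    (3 * r < ω - 1 →
      Tendsto (fun p : ℕ => (exT p Δ ω : ℝ) / p) atTop (𝓝 (rhoL Δ ω))) ∧
    (ω - 1 < 3 * r →
      Tendsto (fun p : ℕ => (exT p Δ ω : ℝ) / p) atTop (𝓝 (rhoG ω m r)) ∧ rhoL Δ ω < rhoG ω m r) := by
  -- thresholds for each `r`
  have key : ∀ r : ℕ, ∃ m0 : ℕ, ∀ m : ℕ, m0 ≤ m → 1 ≤ r → r + 3 ≤ ω →
      (3 * r < ω - 1 →
        Tendsto (fun p : ℕ => (exT p ((ω - 1) * m + r) ω : ℝ) / p) atTop (𝓝 (rhoL ((ω - 1) * m + r) ω))) ∧
      (ω - 1 < 3 * r →
        Tendsto (fun p : ℕ => (exT p ((ω - 1) * m + r) ω : ℝ) / p) atTop (𝓝 (rhoG ω m r)) ∧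
          rhoL ((ω - 1) * m + r) ω < rhoG ω m r) := by
    intro r
    by_cases hr : 1 ≤ r
    · by_cases hs : r + 3 ≤ ω
      · obtain ⟨R, rfl⟩ : ∃ R, ω = R + 1 := ⟨ω - 1, by omega⟩
        have hs' : r + 2 ≤ R := by omega
        have hL : ∀ m : ℕ, rhoL (R * m + r) (R + 1) =
            Pool.Agent.H11.TD.kL R r m / ((R + 1) * m + r) := by
          intro m
          unfold rhoL
          have h1 : (R * m + r) / R = m := by
            rw [Nat.mul_add_div (by omega), Nat.div_eq_of_lt (by omega), add_zero]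
          have h2 : R * m + r + m = (R + 1) * m + r := by ring
          rw [Nat.add_sub_cancel, h1, h2, Pool.Agent.H11.TD.tri_turan R r m (by omega)]
          push_cast
          rfl
        have hGG : ∀ m : ℕ, R < 3 * r → Pool.Agent.H11.TD.PP R r m = rhoG (R + 1) m r := by
          intro m h
          unfold Pool.Agent.H11.TD.PP
          rw [if_neg (by omega)]
          unfold rhoG Pool.Agent.H11.TD.kG Pool.Agent.H11.TD.kL
          have h1 : R + 1 - (r + 1) = R - r := by omega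
          have h2 : R + 1 - 1 - r = R - r := by omega
          have h3 : ((R + 1 - 2 : ℕ) : ℝ) = R - 1 := by
            have : R + 1 - 2 = R - 1 := by omega
            rw [this, Nat.cast_sub (by omega)]
            push_cast
            ring
          rw [h1, h2, h3]
          push_cast
          ring
        by_cases h3 : 3 * r = R
        · refine ⟨0, fun m _ _ _ => ⟨fun h => ?_, fun h => ?_⟩⟩ <;> omega
        · obtain ⟨m1, h1⟩ := Pool.Agent.H11.TD.main R r hr hs' h3
          by_cases h4 : 3 * r < R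
          · refine ⟨m1, fun m hm _ _ => ⟨fun _ => ?_, fun h => by omega⟩⟩
            have h5 := h1 m hm
            unfold Pool.Agent.H11.TD.PP at h5
            rw [if_pos h4] at h5
            rw [Nat.add_sub_cancel, hL]
            exact h5
          · obtain ⟨m2, h2⟩ := Pool.Agent.H11.TD.L_lt_G R r hr hs' (by omega)
            refine ⟨max m1 m2, fun m hm _ _ => ⟨fun h => by omega, fun _ => ?_⟩⟩
            have h5 := h1 m ((le_max_left _ _).trans hm)
            have h6 := h2 m ((le_max_right _ _).trans hm)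
            rw [Nat.add_sub_cancel, hL, ← hGG m (by omega)]
            exact ⟨h5, h6⟩
      · exact ⟨0, fun m _ _ h => absurd h hs⟩
    · exact ⟨0, fun m _ h => absurd h hr⟩
  choose M hM using key
  refine ⟨(ω - 1) * (∑ r ∈ Finset.range ω, M r) + ω, fun Δ hΔ m r hΔr hr hs => ?_⟩
  subst hΔr
  have hrω : r ∈ Finset.range ω := Finset.mem_range.2 (by omega)
  have h1 : M r ≤ ∑ r ∈ Finset.range ω, M r := Finset.single_le_sum (fun _ _ => Nat.zero_le _) hrω
  have h2 : M r ≤ m := by
    by_contra hcon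
    have h3 : (ω - 1) * m ≤ (ω - 1) * (∑ r ∈ Finset.range ω, M r) :=
      Nat.mul_le_mul_left _ (by omega)
    omega
  exact hM r m h2 hr hs

end Pool.Agent.Results.MP_e32fce_co.TriangleDensity
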